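import Mathlib

open Filter Topology

namespace Pool.Agent.Results.MP_743583_al.FreeProduct

open Classical in
/-- Normalized Hamming distance on `Sym(A)`. -/
noncomputable def hamming {A : Type} [Fintype A] (σ τ : Equiv.Perm A) : ℝ :=
  ((Finset.univ.filter fun a => σ a ≠ τ a).card : ℝ) / Fintype.card A

/-- `φ` is an `(F, E, ε)`-orbit approximation of the action `α`. -/
def OrbitApprox {G X A : Type} [Group G] [Fintype A] (α : G →* Equiv.Perm X)
    (φ : G → Equiv.Perm A) (F : Finset G) (E : Finset X) (ε : ℝ) : Prop :=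
  ∃ (B : Type) (_ : Finite B) (S : Finset A) (π : S → (E ↪ B)),
    (1 - ε) * Fintype.card A < S.card ∧
    ∀ (s : S), ∀ g ∈ F, ∀ (x : E) (hs : φ g s ∈ S) (hx : α g⁻¹ x ∈ E),
      π ⟨φ g s, hs⟩ x = π s ⟨α g⁻¹ x, hx⟩

/-- Sofic action of a group on a set. -/
def IsSofic {G X : Type} [Group G] (α : G →* Equiv.Perm X) : Prop :=
  ∀ (F : Finset G) (E : Finset X) (ε : ℝ), 0 < ε →
    ∃ (A : Type) (_ : Fintype A) (φ : G → Equiv.Perm A), φ 1 = 1 ∧
      (∀ g ∈ F, ∀ h ∈ F, hamming (φ (g * h)) (φ g * φ h) < ε) ∧ OrbitApprox α φ F E ε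

open Classical in
noncomputable def frac {A : Type} [Fintype A] (p : A → Prop) : ℝ :=
  ((Finset.univ.filter p).card : ℝ) / Fintype.card A

section Frac

variable {A : Type} [Fintype A]

lemma frac_eq (p : A → Prop) [DecidablePred p] :
    frac p = ((Finset.univ.filter p).card : ℝ) / Fintype.card A := by
  unfold frac; congr

lemma hamming_eq (σ τ : Equiv.Perm A) : hamming σ τ = frac (fun a => σ a ≠ τ a) := by
  unfold frac hamming; congr

lemma frac_nonneg (p : A → Prop) : 0 ≤ frac p := by unfold frac; positivity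

lemma frac_mono {p q : A → Prop} (h : ∀ a, p a → q a) : frac p ≤ frac q := by
  classical
  unfold frac
  gcongr
  exact h _

lemma frac_or (p q : A → Prop) : frac (fun a => p a ∨ q a) ≤ frac p + frac q := by
  classical
  unfold frac
  rw [← add_div]
  gcongr
  have := Finset.card_union_le (Finset.univ.filter p) (Finset.univ.filter q)
  rw [← Finset.filter_or] at this
  convert (Nat.cast_le (α := ℝ)).2 this using 1
  · congr
  · push_cast; congr

lemma frac_equiv {A' : Type} [Fintype A'] (e : A ≃ A') (p : A' → Prop) :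
    frac (fun a => p (e a)) = frac p := by
  classical
  unfold frac
  rw [Fintype.card_congr e]
  congr 2
  exact Finset.card_equiv e (by simp)

lemma frac_fst {T : Type} [Fintype T] [Nonempty T] (p : A → Prop) :
    frac (fun z : A × T => p z.1) = frac p := by
  classical
  unfold frac
  have : (Finset.univ.filter fun z : A × T => p z.1) = (Finset.univ.filter p) ×ˢ Finset.univ := by
    ext z; simp
  have hT : (Fintype.card T : ℝ) ≠ 0 := by exact_mod_cast Fintype.card_ne_zero
  convert_to (((Finset.univ.filter p) ×ˢ (Finset.univ : Finset T)).card : ℝ) / _ = _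
  · rw [← this]
  rw [Finset.card_product, Fintype.card_prod, Finset.card_univ]
  push_cast
  rw [mul_div_mul_right _ _ hT]

lemma frac_pi {J : Type} [Fintype J] [DecidableEq J] (A : J → Type) [∀ j, Fintype (A j)]
    [∀ j, Nonempty (A j)] (i : J) (p : A i → Prop) : frac (fun a : ∀ j, A j => p (a i)) = frac p := by
  rw [← frac_fst (T := ∀ j : {j // j ≠ i}, A j) p,
    ← frac_equiv (Equiv.piSplitAt i A) (fun z => p z.1)]
  rfl

lemma frac_not_mem (S : Finset A) (ε : ℝ) (h : (1 - ε) * Fintype.card A < S.card) :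
    frac (fun a => a ∉ S) ≤ ε ∧ Nonempty A := by
  classical
  have hne : Nonempty A := by
    by_contra hA
    rw [not_nonempty_iff] at hA
    have : S = ∅ := Finset.eq_empty_of_isEmpty S
    simp [this] at h
  refine ⟨?_, hne⟩
  have hA : (0 : ℝ) < Fintype.card A := by exact_mod_cast Fintype.card_pos
  rw [frac_eq, div_le_iff₀ hA]
  have h2 : (Finset.univ.filter fun a => a ∉ S).card + S.card = Fintype.card A := by
    rw [← Finset.card_compl_add_card S]
    congr 2
    ext; simp
  have h3 : ((Finset.univ.filter fun a => a ∉ S).card : ℝ) + S.card = Fintype.card A := by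
    exact_mod_cast h2
  linarith

lemma card_good [Nonempty A] (p : A → Prop) [DecidablePred p] (ε : ℝ) (h : frac p < ε) :
    (1 - ε) * Fintype.card A < (Finset.univ.filter fun a => ¬ p a).card := by
  have hA : (0 : ℝ) < Fintype.card A := by exact_mod_cast Fintype.card_pos
  rw [frac_eq, div_lt_iff₀ hA] at h
  have h2 := Finset.card_filter_add_card_filter_not (s := Finset.univ) p
  rw [Finset.card_univ] at h2
  have h3 : ((Finset.univ.filter p).card : ℝ) + (Finset.univ.filter fun a => ¬ p a).card =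
      Fintype.card A := by exact_mod_cast h2
  linarith

end Frac

/-- The twisted action of `Sym(A i)` on `(∏ A j) × Γ`. -/
def twist {J : Type} [DecidableEq J] (A : J → Type) {Γ : Type} [Group Γ] (i : J)
    (ρ : A i → Γ) : Equiv.Perm (A i) →* Equiv.Perm ((∀ j, A j) × Γ) :=
  letI : MulAction (Equiv.Perm (A i)) ((∀ j, A j) × Γ) :=
    { smul := fun σ z => (Function.update z.1 i (σ (z.1 i)), z.2 * (ρ (z.1 i))⁻¹ * ρ (σ (z.1 i)))
      one_smul := fun z => by
        change (Function.update z.1 i (z.1 i), z.2 * (ρ (z.1 i))⁻¹ * ρ (z.1 i)) = z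
        simp
      mul_smul := fun σ τ z => by
        change (Function.update z.1 i (σ (τ (z.1 i))), z.2 * (ρ (z.1 i))⁻¹ * ρ (σ (τ (z.1 i)))) =
          (Function.update (Function.update z.1 i (τ (z.1 i))) i
            (σ (Function.update z.1 i (τ (z.1 i)) i)),
            z.2 * (ρ (z.1 i))⁻¹ * ρ (τ (z.1 i)) * (ρ (Function.update z.1 i (τ (z.1 i)) i))⁻¹ *
              ρ (σ (Function.update z.1 i (τ (z.1 i)) i)))
        simp }
  MulAction.toPermHom _ _

lemma twist_apply {J : Type} [DecidableEq J] (A : J → Type) {Γ : Type} [Group Γ] (i : J)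
    (ρ : A i → Γ) (σ : Equiv.Perm (A i)) (z : (∀ j, A j) × Γ) :
    twist A i ρ σ z =
      (Function.update z.1 i (σ (z.1 i)), z.2 * (ρ (z.1 i))⁻¹ * ρ (σ (z.1 i))) := rfl

variable {I X : Type} {G : I → Type} [∀ i, Group (G i)]

lemma level (α : ∀ i, G i →* Equiv.Perm X) (hα : ∀ i, IsSofic (α i))
    (F : Finset (Σ i, G i)) (E : Finset X) (ε : ℝ) (hε : 0 < ε) :
    ∃ (A : Type) (_ : Fintype A) (_ : Nonempty A) (B : Type) (_ : Finite B) (L : A → X → B)
      (φ : ∀ i, G i → Equiv.Perm A), (∀ a, Set.InjOn (L a) E) ∧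
      (∀ i (g h : G i), ⟨i, g⟩ ∈ F → ⟨i, h⟩ ∈ F →
        frac (fun a => φ i (g * h) a ≠ φ i g (φ i h a)) ≤ ε) ∧
      ∀ i (g : G i), ⟨i, g⟩ ∈ F → ∀ x ∈ E, α i g⁻¹ x ∈ E →
        frac (fun a => L (φ i g a) x ≠ L a (α i g⁻¹ x)) ≤ 2 * ε := by
  classical
  have h := fun i => hα i (F.preimage (Sigma.mk i) sigma_mk_injective.injOn) E ε hε
  choose A hA φ _ hmul B hB S π hS hπ using h
  have hne : ∀ i, Nonempty (A i) := fun i => (frac_not_mem _ _ (hS i)).2
  let J := F.image Sigma.fst
  let BB : Type := Option E ⊕ Σ i : J, B i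
  let _ : Fintype BB := Fintype.ofFinite _
  have hρ : ∀ (i : J) (s : A i), ∃ ρ : Equiv.Perm BB, ∀ (hs : s ∈ S i) (x : E),
      ρ (Sum.inl (some x)) = Sum.inr ⟨i, π i ⟨s, hs⟩ x⟩ := by
    intro i s
    by_cases hs : s ∈ S i
    · obtain ⟨ρ, hρ⟩ := Equiv.Perm.exists_extending_pair
        (f := fun x : E => (Sum.inl (some x) : BB))
        (g := fun x : E => (Sum.inr ⟨i, π i ⟨s, hs⟩ x⟩ : BB))
        (fun x y h => by simpa [BB] using h)
        (fun x y h => by simpa [BB] using h)
      exact ⟨ρ, fun _ x => hρ x⟩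
    · exact ⟨1, fun h => absurd h hs⟩
  choose ρ hρ using hρ
  let j0 : X → BB := fun x => if h : x ∈ E then Sum.inl (some ⟨x, h⟩) else Sum.inl none
  refine ⟨(∀ j : J, A j) × Equiv.Perm BB, inferInstance, inferInstance, BB, inferInstance,
    fun z x => z.2 (j0 x),
    fun i g => if h : i ∈ J then twist (fun j : J => A j) ⟨i, h⟩ (ρ ⟨i, h⟩) (φ i g) else 1,
    ?_, ?_, ?_⟩
  · intro z x hx y hy hxy
    have hx : x ∈ E := hx
    have hy : y ∈ E := hy
    simpa [j0, hx, hy, BB] using hxy
  · intro i g h hg hh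
    have hi : i ∈ J := Finset.mem_image.2 ⟨_, hg, rfl⟩
    have h1 := hmul i g (Finset.mem_preimage.2 hg) h (Finset.mem_preimage.2 hh)
    rw [hamming_eq, ← frac_pi (fun j : J => A j) ⟨i, hi⟩, ← frac_fst (T := Equiv.Perm BB)] at h1
    simp only [dif_pos hi]
    refine le_trans (frac_mono ?_) h1.le
    intro z hz hz'
    apply hz
    rw [← Equiv.Perm.mul_apply, ← map_mul, twist_apply, twist_apply, hz']
  · intro i g hg x hx hgx
    have hi : i ∈ J := Finset.mem_image.2 ⟨_, hg, rfl⟩
    have h1 := (frac_not_mem _ _ (hS i)).1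
    have h2 : frac (fun a => a ∉ S i ∨ φ i g a ∉ S i) ≤ 2 * ε := by
      refine (frac_or _ _).trans ?_
      rw [frac_equiv (φ i g) (fun a => a ∉ S i)]
      linarith
    rw [← frac_pi (fun j : J => A j) ⟨i, hi⟩, ← frac_fst (T := Equiv.Perm BB)] at h2
    simp only [dif_pos hi]
    refine le_trans (frac_mono ?_) h2
    intro z hz
    by_contra hz'
    push Not at hz'
    apply hz
    simp only [twist_apply, j0, dif_pos hx, dif_pos hgx, Equiv.Perm.mul_apply]
    congr 1
    rw [hρ ⟨i, hi⟩ _ hz'.2, hπ i ⟨_, hz'.1⟩ g (Finset.mem_preimage.2 hg) ⟨x, hx⟩ hz'.2 hgx,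
      ← hρ ⟨i, hi⟩ _ hz'.1]
    simp

section Limit

variable {Λ : Type} (l : Filter Λ) {A : Λ → Type} [∀ n, Fintype (A n)]

def Null (p : ∀ n, A n → Prop) : Prop := Tendsto (fun n => frac (p n)) l (𝓝 0)

variable {l}

lemma Null.mono {p q : ∀ n, A n → Prop} (hq : Null l q) (h : ∀ n a, p n a → q n a) : Null l p :=
  squeeze_zero (fun _ => frac_nonneg _) (fun n => frac_mono (h n)) hq

lemma Null.or {p q : ∀ n, A n → Prop} (hp : Null l p) (hq : Null l q) :
    Null l (fun n a => p n a ∨ q n a) :=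
  squeeze_zero (fun _ => frac_nonneg _) (fun _ => frac_or _ _) (by simpa using hp.add hq)

lemma Null.comp {p : ∀ n, A n → Prop} (hp : Null l p) (σ : ∀ n, Equiv.Perm (A n)) :
    Null l (fun n a => p n (σ n a)) := by
  unfold Null at *
  simpa only [frac_equiv] using hp

lemma null_false : Null l (fun n (_ : A n) => False) := by
  unfold Null frac
  simpa using tendsto_const_nhds

lemma null_finset {κ : Type} (T : Finset κ) (p : κ → ∀ n, A n → Prop)
    (h : ∀ t ∈ T, Null l (p t)) : Null l (fun n a => ∃ t ∈ T, p t n a) := by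
  classical
  induction T using Finset.induction_on with
  | empty => exact null_false.mono (by simp)
  | insert t T _ ih =>
    exact ((h t (by simp)).or (ih fun u hu => h u (by simp [hu]))).mono (by simp)

variable (l A) in
def nullSub : Subgroup (∀ n, Equiv.Perm (A n)) where
  carrier := {σ | Null l (fun n a => σ n a ≠ a)}
  one_mem' := null_false.mono (by simp)
  mul_mem' := fun {σ τ} hσ hτ => ((Null.comp hσ τ).or hτ).mono (fun n a h => by
    by_contra h'
    push Not at h'
    exact h (h'.1.trans h'.2))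
  inv_mem' := fun {σ} hσ => (Null.comp hσ σ⁻¹).mono (fun n a h h' => h (by
    simpa using h'.symm))

instance : (nullSub l A).Normal where
  conj_mem := fun σ hσ τ => (Null.comp hσ τ⁻¹).mono (fun n a h h' => h (by
    simp only [Pi.mul_apply, Equiv.Perm.mul_apply, h']
    simp))

lemma mk_eq_iff (σ τ : ∀ n, Equiv.Perm (A n)) :
    (σ : (∀ n, Equiv.Perm (A n)) ⧸ nullSub l A) = τ ↔ Null l (fun n a => σ n a ≠ τ n a) := by
  rw [QuotientGroup.eq]
  change Null l (fun n a => (σ n)⁻¹ (τ n a) ≠ a) ↔ _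
  simp only [ne_eq, Equiv.Perm.inv_eq_iff_eq, @eq_comm _ (τ _ _)]

end Limit

theorem result (I X : Type) [Countable I] [Countable X] (G : I → Type) [∀ i, Group (G i)]
    [∀ i, Countable (G i)] (α : ∀ i, G i →* Equiv.Perm X) (hα : ∀ i, IsSofic (α i)) :
    IsSofic (Monoid.CoprodI.lift α : Monoid.CoprodI G →* Equiv.Perm X) := by
  classical
  let Λ : Type := Finset (Σ i, G i) × Finset X × ℕ
  have h := fun n : Λ => level α hα n.1 n.2.1 (1 / ((n.2.2 : ℝ) + 1)) (by positivity)
  choose A _ _ B hB L φ hL hmul horb using h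
  let l : Filter Λ := atTop
  have hε : Tendsto (fun n : Λ => 1 / ((n.2.2 : ℝ) + 1)) l (𝓝 0) :=
    tendsto_one_div_add_atTop_nhds_zero_nat.comp
      (tendsto_atTop.2 fun k =>
        (eventually_ge_atTop ((∅, ∅, k) : Λ)).mono fun n hn => hn.2.2)
  have hF : ∀ t : Σ i, G i, ∀ᶠ n in l, t ∈ n.1 := fun t =>
    (eventually_ge_atTop (({t}, ∅, 0) : Λ)).mono fun n hn => hn.1 (Finset.mem_singleton_self t)
  have hE : ∀ E : Finset X, ∀ᶠ n in l, E ⊆ n.2.1 := fun E =>
    (eventually_ge_atTop ((∅, E, 0) : Λ)).mono fun n hn => hn.2.1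
  let P := ∀ n, Equiv.Perm (A n)
  let Φi : ∀ i, G i →* P ⧸ nullSub l A := fun i =>
    MonoidHom.mk' (fun g => ((fun n => φ n i g : P) : P ⧸ nullSub l A)) (fun g h => by
      rw [← QuotientGroup.mk_mul, mk_eq_iff]
      refine squeeze_zero' (Eventually.of_forall fun _ => frac_nonneg _) ?_ hε
      filter_upwards [hF ⟨i, g⟩, hF ⟨i, h⟩] with n h1 h2
      exact hmul n i g h h1 h2)
  let Φ := Monoid.CoprodI.lift Φi
  let Q : P → Equiv.Perm X → Prop := fun σ u =>
    ∀ x, Null l (fun n a => L n (σ n a) x ≠ L n a (u⁻¹ x))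
  have hQ : ∀ g, ∃ σ : P, (σ : P ⧸ nullSub l A) = Φ g ∧ Q σ (Monoid.CoprodI.lift α g) ∧
      (g = 1 → σ = 1) := by
    have h1 : Q 1 1 := fun x => null_false.mono (fun n a h => h rfl)
    have : ∀ g, ∃ σ : P, (σ : P ⧸ nullSub l A) = Φ g ∧ Q σ (Monoid.CoprodI.lift α g) := by
      intro g
      induction g using Monoid.CoprodI.induction_on with
      | one => exact ⟨1, by simp, by simpa using h1⟩
      | of i g =>
        refine ⟨fun n => φ n i g, by simp [Φ, Φi], fun x => ?_⟩
        refine squeeze_zero' (Eventually.of_forall fun _ => frac_nonneg _) ?_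
          (by simpa using hε.const_mul 2)
        filter_upwards [hF ⟨i, g⟩, hE {x, α i g⁻¹ x}] with n h1 h2
        have := horb n i g h1 x (h2 (by simp)) (h2 (by simp))
        simpa using this
      | mul g h hg hh =>
        obtain ⟨σ, h1, h2⟩ := hg
        obtain ⟨τ, h3, h4⟩ := hh
        refine ⟨σ * τ, by rw [QuotientGroup.mk_mul, h1, h3, map_mul], fun x => ?_⟩
        refine (((h2 x).comp τ).or (h4 ((Monoid.CoprodI.lift α g)⁻¹ x))).mono fun n a h5 => ?_
        by_contra h6
        push Not at h6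
        apply h5
        rw [map_mul, mul_inv_rev, Equiv.Perm.mul_apply, ← h6.2, ← h6.1]
        rfl
    intro g
    by_cases hg : g = 1
    · exact ⟨1, by simp [hg], by simpa [hg] using h1, fun _ => rfl⟩
    · obtain ⟨σ, h2, h3⟩ := this g
      exact ⟨σ, h2, h3, fun h => absurd h hg⟩
  choose ψ hψ1 hψ2 hψ3 using hQ
  intro F E ε hε0
  have e1 : ∀ᶠ n in l, ∀ g ∈ F, ∀ h ∈ F, hamming (ψ (g * h) n) (ψ g n * ψ h n) < ε := by
    rw [Filter.eventually_all_finset]
    intro g _
    rw [Filter.eventually_all_finset]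
    intro h _
    have : (ψ (g * h) : P ⧸ nullSub l A) = (ψ g * ψ h : P) := by
      rw [QuotientGroup.mk_mul, hψ1, hψ1, hψ1, map_mul]
    simp only [hamming_eq]
    exact ((mk_eq_iff _ _).1 this).eventually (gt_mem_nhds hε0)
  have e2 := (null_finset F _ fun g _ => null_finset E _ fun x _ => hψ2 g x).eventually
    (gt_mem_nhds hε0)
  obtain ⟨n, h1, h2, h3⟩ := (e1.and (e2.and (hE E))).exists
  refine ⟨A n, inferInstance, fun g => ψ g n, congrFun (hψ3 1 rfl) n, h1, B n, hB n, _,
    fun s => ⟨fun x => L n s x, fun x y hxy => Subtype.ext (hL n s (h3 x.2) (h3 y.2) hxy)⟩,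
    card_good _ ε h2, ?_⟩
  intro s g hg x _ _
  have := (Finset.mem_filter.1 s.2).2
  push Not at this
  simpa using this g hg x x.2

end Pool.Agent.Results.MP_743583_al.FreeProduct
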